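import Pool.Agent.Helper13.PS.St

/-!
# Project PS, module PK
-/

set_option autoImplicit false

namespace Pool.Agent.Helper22.PS

open Finset Pool.Agent.Helper76.ND Pool.Agent.Helper13.PS

private theorem clog_bd (j : ℕ) : 3 ^ j ≤ 2 ^ Nat.clog 2 (3 ^ j) ∧
    2 ^ Nat.clog 2 (3 ^ j) ≤ 2 * 3 ^ j := by
  refine ⟨Nat.le_pow_clog (by norm_num) _, ?_⟩
  rcases Nat.eq_zero_or_pos j with h | h
  · subst h; simp
  · have h1 : 1 < 3 ^ j := Nat.one_lt_pow (by omega) (by norm_num)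
    have h2 := Nat.pow_pred_clog_lt_self (b := 2) (by norm_num) h1
    have h3 : 0 < Nat.clog 2 (3 ^ j) := Nat.clog_pos (by norm_num) (by omega)
    obtain ⟨m, hm⟩ : ∃ m, Nat.clog 2 (3 ^ j) = m + 1 := ⟨_, (Nat.succ_pred_eq_of_pos h3).symm⟩
    rw [hm] at h2 ⊢
    simp only [Nat.pred_succ] at h2
    rw [pow_succ]
    omega

private theorem rp1 (c : ℝ) (j : ℕ) (hc : 0 < c) (hc1 : c < 1) :
    (2 : ℝ) ^ ((1 - c) * (Nat.clog 2 (3 ^ j) : ℕ)) ≤ 2 * (3 : ℝ) ^ ((1 - c) * j) := by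
  have h1 : ((2 : ℝ) ^ Nat.clog 2 (3 ^ j)) ≤ 2 * 3 ^ j := by exact_mod_cast (clog_bd j).2
  rw [mul_comm (1 - c) _, mul_comm (1 - c) _, Real.rpow_mul (by norm_num), Real.rpow_natCast,
    Real.rpow_mul (by norm_num), Real.rpow_natCast]
  calc ((2 : ℝ) ^ Nat.clog 2 (3 ^ j)) ^ (1 - c) ≤ (2 * 3 ^ j) ^ (1 - c) :=
        Real.rpow_le_rpow (by positivity) h1 (by linarith)
    _ = 2 ^ (1 - c) * (3 ^ j) ^ (1 - c) := Real.mul_rpow (by norm_num) (by positivity)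
    _ ≤ 2 * (3 ^ j) ^ (1 - c) := by
        refine mul_le_mul_of_nonneg_right ?_ (by positivity)
        calc (2 : ℝ) ^ (1 - c) ≤ 2 ^ (1 : ℝ) :=
              Real.rpow_le_rpow_of_exponent_le (by norm_num) (by linarith)
          _ = 2 := Real.rpow_one _

/-- the final numerical estimate for one value of `j` -/
private theorem rp2 (C c u : ℝ) (n j t : ℕ) (hC : 0 < C) (hc : 0 < c) (hu0 : 0 ≤ u)
    (hu : u ≤ 2 * C * (3 : ℝ) ^ ((1 - c) * j)) (hj : t ≤ 4 * j) :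
    3 * (u / (3 : ℝ) ^ ((1 - c / 2) * j)) ^ (1 / ((n : ℝ) + 1)) ≤
      3 * (2 * C + 1) * (2 : ℝ) ^ (-(2 * (c / (16 * ((n : ℝ) + 1))) * t)) := by
  have hn : (0 : ℝ) < (n : ℝ) + 1 := by positivity
  have h0 : u / (3 : ℝ) ^ ((1 - c / 2) * j) ≤ (2 * C + 1) * (3 : ℝ) ^ (-(c * j / 2)) := by
    rw [div_le_iff₀ (by positivity), mul_assoc, ← Real.rpow_add (by norm_num)]
    refine hu.trans ?_
    have : -(c * j / 2) + (1 - c / 2) * j = (1 - c) * j := by ring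
    rw [this]
    have h3 : (0 : ℝ) < (3 : ℝ) ^ ((1 - c) * j) := by positivity
    nlinarith
  have h1 : (u / (3 : ℝ) ^ ((1 - c / 2) * j)) ^ (1 / ((n : ℝ) + 1)) ≤
      ((2 * C + 1) * (3 : ℝ) ^ (-(c * j / 2))) ^ (1 / ((n : ℝ) + 1)) :=
    Real.rpow_le_rpow (by positivity) h0 (by positivity)
  have h2 : ((2 * C + 1) * (3 : ℝ) ^ (-(c * j / 2))) ^ (1 / ((n : ℝ) + 1)) =
      (2 * C + 1) ^ (1 / ((n : ℝ) + 1)) * (3 : ℝ) ^ (-(c * j / 2) * (1 / ((n : ℝ) + 1))) := by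
    rw [Real.mul_rpow (by positivity) (by positivity), ← Real.rpow_mul (by norm_num)]
  have h3 : (2 * C + 1) ^ (1 / ((n : ℝ) + 1)) ≤ 2 * C + 1 := by
    calc (2 * C + 1) ^ (1 / ((n : ℝ) + 1)) ≤ (2 * C + 1) ^ (1 : ℝ) := by
          refine Real.rpow_le_rpow_of_exponent_le (by linarith) ?_
          rw [div_le_one hn]
          have : (0 : ℝ) ≤ n := Nat.cast_nonneg n
          linarith
      _ = 2 * C + 1 := Real.rpow_one _
  have hjt : (t : ℝ) ≤ 4 * j := by exact_mod_cast hj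
  have h4 : (3 : ℝ) ^ (-(c * j / 2) * (1 / ((n : ℝ) + 1))) ≤
      (2 : ℝ) ^ (-(2 * (c / (16 * ((n : ℝ) + 1))) * t)) := by
    have e1 : -(c * j / 2) * (1 / ((n : ℝ) + 1)) = -(c * (4 * j) / (8 * ((n : ℝ) + 1))) := by
      field_simp
      ring
    have e2 : -(2 * (c / (16 * ((n : ℝ) + 1))) * t) = -(c * t / (8 * ((n : ℝ) + 1))) := by
      field_simp
      ring
    rw [e1, e2, Real.rpow_neg (by norm_num), Real.rpow_neg (by norm_num)]
    refine inv_anti₀ (by positivity) ?_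
    calc (2 : ℝ) ^ (c * t / (8 * ((n : ℝ) + 1))) ≤ 3 ^ (c * t / (8 * ((n : ℝ) + 1))) :=
          Real.rpow_le_rpow (by norm_num) (by norm_num) (by positivity)
      _ ≤ 3 ^ (c * (4 * j) / (8 * ((n : ℝ) + 1))) := by
          refine Real.rpow_le_rpow_of_exponent_le (by norm_num) ?_
          gcongr
  rw [mul_assoc]
  refine mul_le_mul_of_nonneg_left ?_ (by norm_num)
  refine h1.trans ?_
  rw [h2]
  exact mul_le_mul h3 h4 (by positivity) (by positivity)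

theorem hPK (hPG : StPG) (hPH : StPH) (hPI : StPI) : StPK := by
  classical
  intro σ Z hσ hσ4 hZ'
  obtain ⟨C, c, hC, hc, hc1, hZ⟩ := hZ'
  obtain ⟨n, hn, hG⟩ := hPG (c / 2) (by linarith) (by linarith)
  set c' : ℝ := c / (16 * ((n : ℝ) + 1)) with hc'
  have hn0 : (0 : ℝ) ≤ n := Nat.cast_nonneg n
  have hc'0 : 0 < c' := by rw [hc']; positivity
  have hc'1 : c' < 1 := by
    rw [hc', div_lt_one (by positivity)]
    linarith
  set a : ℝ := c' * Real.log 2 with ha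
  have hlog2 : 0 < Real.log 2 := Real.log_pos (by norm_num)
  have hlog2' : Real.log 2 < 1 := by
    have := Real.log_two_lt_d9
    linarith
  have ha0 : 0 < a := mul_pos hc'0 hlog2
  have ha1 : a ≤ 1 := by
    rw [ha]; nlinarith
  refine ⟨3 * (2 * C + 1) / a, c', by positivity, hc'0, hc'1, ?_⟩
  intro t
  -- the sets U j
  let U : ℕ → Finset ℕ := fun j => (Icc 1 (3 ^ j)).filter (fun M => Z (Nat.clog 2 (3 ^ j)) M)
  have hUsub : ∀ j, U j ⊆ Icc 1 (3 ^ j) := fun j => filter_subset _ _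
  have hUcard : ∀ j, ((U j).card : ℝ) ≤ 2 * C * (3 : ℝ) ^ ((1 - c) * j) := by
    intro j
    have h1 : (U j).card ≤ ((Icc 1 (2 ^ Nat.clog 2 (3 ^ j))).filter
        (fun N => Z (Nat.clog 2 (3 ^ j)) N)).card := by
      refine card_le_card ?_
      intro M hM
      simp only [U, mem_filter, mem_Icc] at hM ⊢
      exact ⟨⟨hM.1.1, hM.1.2.trans (clog_bd j).1⟩, hM.2⟩
    have h2 : ((U j).card : ℝ) ≤ C * 2 ^ ((1 - c) * (Nat.clog 2 (3 ^ j) : ℕ)) := by
      refine le_trans ?_ (hZ (Nat.clog 2 (3 ^ j)))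
      exact_mod_cast h1
    have h3 := rp1 c j hc hc1
    calc ((U j).card : ℝ) ≤ C * 2 ^ ((1 - c) * (Nat.clog 2 (3 ^ j) : ℕ)) := h2
      _ ≤ C * (2 * (3 : ℝ) ^ ((1 - c) * j)) := mul_le_mul_of_nonneg_left h3 hC.le
      _ = 2 * C * (3 : ℝ) ^ ((1 - c) * j) := by ring
  -- inclusion
  have hsub : (Icc 1 (2 ^ t)).filter (fun N => ¬ E σ t N ∧ Z (nx t N) (S^[t] N)) ⊆
      ((range (t + 1)).filter (fun j => t ≤ 4 * j)).biUnion (fun j =>
        (Icc 1 (2 ^ t)).filter (fun N => hd (wd t N) = j ∧ S^[t] N ∈ U j)) := by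
    intro N hN
    rw [mem_filter, mem_Icc] at hN
    obtain ⟨⟨hN1, hN2⟩, hE, hZN⟩ := hN
    rw [mem_biUnion]
    have hgd : Gd (σ * t) (wd t N) := by
      by_contra hcon
      exact hE (Or.inr hcon)
    have h1 := hgd t (by simp)
    rw [wd_length, Nat.sub_self, List.drop_zero] at h1
    have h2 := abs_le.1 h1
    have h3 : (t : ℝ) ≤ 4 * (hd (wd t N) : ℝ) := by
      have ht0 : (0 : ℝ) ≤ t := Nat.cast_nonneg t
      have : σ * t ≤ 1 / 4 * t := mul_le_mul_of_nonneg_right hσ4 ht0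
      linarith [h2.1]
    have h4 : t ≤ 4 * hd (wd t N) := by exact_mod_cast h3
    have h5 : hd (wd t N) ≤ t := by
      have := hd_le (wd t N)
      rwa [wd_length] at this
    refine ⟨hd (wd t N), ?_, ?_⟩
    · rw [mem_filter, mem_range]
      exact ⟨by omega, h4⟩
    · rw [mem_filter, mem_Icc]
      refine ⟨⟨hN1, hN2⟩, rfl, ?_⟩
      simp only [U]
      rw [mem_filter]
      exact ⟨hPI t N hN1 hN2, hZN⟩
  have hcard1 : (((Icc 1 (2 ^ t)).filter (fun N => ¬ E σ t N ∧ Z (nx t N) (S^[t] N))).card : ℝ) ≤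
      ∑ j ∈ (range (t + 1)).filter (fun j => t ≤ 4 * j),
        (((Icc 1 (2 ^ t)).filter (fun N => hd (wd t N) = j ∧ S^[t] N ∈ U j)).card : ℝ) := by
    have := (card_le_card hsub).trans card_biUnion_le
    exact_mod_cast this
  have hterm : ∀ j ∈ (range (t + 1)).filter (fun j => t ≤ 4 * j),
      (((Icc 1 (2 ^ t)).filter (fun N => hd (wd t N) = j ∧ S^[t] N ∈ U j)).card : ℝ) ≤
      2 ^ t * (3 * (2 * C + 1) * (2 : ℝ) ^ (-(2 * c' * t))) := by
    intro j hj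
    rw [mem_filter] at hj
    refine (hPH t j (U j)).trans ?_
    refine mul_le_mul_of_nonneg_left ?_ (by positivity)
    refine (hG (t + 1) j (U j) (hUsub j)).trans ?_
    exact rp2 C c ((U j).card : ℝ) n j t hC hc (by positivity) (hUcard j) hj.2
  have hsum : ∑ j ∈ (range (t + 1)).filter (fun j => t ≤ 4 * j),
        (((Icc 1 (2 ^ t)).filter (fun N => hd (wd t N) = j ∧ S^[t] N ∈ U j)).card : ℝ) ≤
      ((t : ℝ) + 1) * (2 ^ t * (3 * (2 * C + 1) * (2 : ℝ) ^ (-(2 * c' * t)))) := by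
    refine (sum_le_sum hterm).trans ?_
    rw [sum_const, nsmul_eq_mul]
    refine mul_le_mul_of_nonneg_right ?_ (by positivity)
    have : ((range (t + 1)).filter (fun j => t ≤ 4 * j)).card ≤ t + 1 := by
      refine (card_filter_le _ _).trans ?_
      rw [card_range]
    exact_mod_cast this
  have hexp : (t : ℝ) + 1 ≤ 1 / a * (2 : ℝ) ^ (c' * t) := by
    have h1 : (2 : ℝ) ^ (c' * t) = Real.exp (a * t) := by
      rw [Real.rpow_def_of_pos (by norm_num), ha]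
      congr 1
      ring
    have h2 := Real.add_one_le_exp (a * t)
    rw [h1]
    have h3 : (t : ℝ) + 1 ≤ 1 / a * (a * t + 1) := by
      have h4 : 1 / a * (a * t + 1) = t + 1 / a := by field_simp
      rw [h4]
      have h5 : 1 ≤ 1 / a := by rwa [le_div_iff₀ ha0, one_mul]
      linarith
    refine h3.trans ?_
    exact mul_le_mul_of_nonneg_left h2 (by positivity)
  refine hcard1.trans (hsum.trans ?_)
  calc ((t : ℝ) + 1) * (2 ^ t * (3 * (2 * C + 1) * (2 : ℝ) ^ (-(2 * c' * t))))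
      ≤ (1 / a * (2 : ℝ) ^ (c' * t)) * (2 ^ t * (3 * (2 * C + 1) * (2 : ℝ) ^ (-(2 * c' * t)))) :=
        mul_le_mul_of_nonneg_right hexp (by positivity)
    _ = 3 * (2 * C + 1) / a * ((2 : ℝ) ^ (c' * t) * 2 ^ (t : ℝ) * (2 : ℝ) ^ (-(2 * c' * t))) := by
        rw [Real.rpow_natCast]
        ring
    _ = 3 * (2 * C + 1) / a * 2 ^ ((1 - c') * t) := by
        rw [← Real.rpow_add (by norm_num), ← Real.rpow_add (by norm_num)]
        congr 2
        ring

end Pool.Agent.Helper22.PS
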