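import Pool.Agent.Helper13.PS.St

/-!
# Project PS, module QG
-/

set_option autoImplicit false

namespace Pool.Agent.Helper22.PS

open Finset Pool.Agent.Helper76.ND Pool.Agent.Helper13.PS

private theorem law_good (ε : ℝ) (hε : 0 < ε) (n : ℕ) (hn : 1 ≤ n)
    (hbig : Real.exp (1 / (6 * ε)) < n) (hL : Law (ε / 3) n) :
    (∃ k : ℕ, ((T^[k] n : ℕ) : ℝ) < (n : ℝ) ^ ε) ∧
    ∀ k : ℕ, (k : ℝ) * Real.log (4 / 3) ≤ 3 * Real.log n →
      |Real.log (T^[k] n : ℕ) - (Real.log n - k * Real.log (4 / 3) / 3)| ≤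
        ε * Real.log n := by
  have hn0 : (0 : ℝ) < n := by exact_mod_cast hn
  have hlog0 : 0 ≤ Real.log n := Real.log_natCast_nonneg n
  have hl43 : 0 < Real.log (4 / 3) := Real.log_pos (by norm_num)
  have hl43' : Real.log (4 / 3) ≤ 1 / 3 := by
    have := Real.log_le_sub_one_of_pos (show (0 : ℝ) < 4 / 3 by norm_num)
    linarith
  have hlogbig : 1 / (6 * ε) < Real.log n := by
    rw [Real.lt_log_iff_exp_lt hn0]
    exact hbig
  have hkey : 1 / 9 < 2 * ε / 3 * Real.log n := by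
    have h1 := mul_lt_mul_of_pos_left hlogbig (show 0 < 2 * ε / 3 by positivity)
    have h2 : 2 * ε / 3 * (1 / (6 * ε)) = 1 / 9 := by
      field_simp
      norm_num
    linarith
  refine ⟨?_, ?_⟩
  · set k : ℕ := ⌊3 * Real.log n / Real.log (4 / 3)⌋₊ with hk
    have hk1 : (k : ℝ) * Real.log (4 / 3) ≤ 3 * Real.log n := by
      have := Nat.floor_le (show 0 ≤ 3 * Real.log n / Real.log (4 / 3) by positivity)
      rwa [← hk, le_div_iff₀ hl43] at this
    have hk2 : 3 * Real.log n < ((k : ℝ) + 1) * Real.log (4 / 3) := by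
      have := Nat.lt_floor_add_one (3 * Real.log n / Real.log (4 / 3))
      rwa [← hk, div_lt_iff₀ hl43] at this
    have h1 := abs_le.1 (hL k hk1)
    have h2 : Real.log (T^[k] n : ℕ) < ε * Real.log n := by
      have h3 := h1.2
      nlinarith
    refine ⟨k, ?_⟩
    rcases Nat.eq_zero_or_pos (T^[k] n) with h | h
    · rw [h]
      simp only [Nat.cast_zero]
      positivity
    · have h4 : (0 : ℝ) < (T^[k] n : ℕ) := by exact_mod_cast h
      rw [← Real.log_rpow hn0] at h2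
      exact (Real.log_lt_log_iff h4 (by positivity)).1 h2
  · intro k hk
    refine (hL k hk).trans ?_
    nlinarith

theorem hQG (hQF : StQF) : StQG := by
  classical
  intro ε hε
  obtain ⟨C, c, hC, hc, hc1, hF⟩ := hQF (ε / 3) (by positivity)
  set N0 : ℕ := ⌈Real.exp (1 / (6 * ε))⌉₊ with hN0
  refine ⟨N0 + 2 * C, c, by positivity, hc, ?_⟩
  intro x hx
  have hx1 : (1 : ℝ) ≤ x := by exact_mod_cast hx
  set t : ℕ := Nat.log 2 x + 1 with ht
  have ht1 : x ≤ 2 ^ t := (Nat.lt_pow_succ_log_self (by norm_num) x).le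
  have ht2 : 2 ^ t ≤ 2 * x := by
    have := Nat.pow_log_le_self 2 (show x ≠ 0 by omega)
    rw [ht, pow_succ]
    omega
  have hsub : (Icc 1 x).filter (fun n => ¬ ((∃ k : ℕ, ((T^[k] n : ℕ) : ℝ) < (n : ℝ) ^ ε) ∧
      ∀ k : ℕ, (k : ℝ) * Real.log (4 / 3) ≤ 3 * Real.log n →
        |Real.log (T^[k] n : ℕ) - (Real.log n - k * Real.log (4 / 3) / 3)| ≤
          ε * Real.log n)) ⊆
      Icc 1 N0 ∪ (Icc 1 (2 ^ t)).filter (fun N => ¬ Law (ε / 3) N) := by
    intro n hn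
    rw [mem_filter, mem_Icc] at hn
    obtain ⟨⟨hn1, hn2⟩, hbad⟩ := hn
    rw [mem_union, mem_Icc, mem_filter, mem_Icc]
    by_cases h : n ≤ N0
    · exact Or.inl ⟨hn1, h⟩
    · right
      refine ⟨⟨hn1, hn2.trans ht1⟩, ?_⟩
      intro hL
      apply hbad
      refine law_good ε hε n hn1 ?_ hL
      have h1 : Real.exp (1 / (6 * ε)) ≤ N0 := Nat.le_ceil _
      have h2 : (N0 : ℝ) < n := by
        have : N0 < n := by omega
        exact_mod_cast this
      linarith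
  have hcard : (((Icc 1 x).filter (fun n => ¬ ((∃ k : ℕ, ((T^[k] n : ℕ) : ℝ) < (n : ℝ) ^ ε) ∧
      ∀ k : ℕ, (k : ℝ) * Real.log (4 / 3) ≤ 3 * Real.log n →
        |Real.log (T^[k] n : ℕ) - (Real.log n - k * Real.log (4 / 3) / 3)| ≤
          ε * Real.log n))).card : ℝ) ≤
      N0 + (((Icc 1 (2 ^ t)).filter (fun N => ¬ Law (ε / 3) N)).card : ℝ) := by
    have h1 := (card_le_card hsub).trans (card_union_le _ _)
    rw [Nat.card_Icc, Nat.add_sub_cancel] at h1
    exact_mod_cast h1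
  have hpow : (2 : ℝ) ^ ((1 - c) * t) ≤ 2 * (x : ℝ) ^ (1 - c) := by
    have h1 : ((2 : ℝ) ^ t) ≤ 2 * x := by exact_mod_cast ht2
    rw [mul_comm (1 - c) _, Real.rpow_mul (by norm_num), Real.rpow_natCast]
    calc ((2 : ℝ) ^ t) ^ (1 - c) ≤ (2 * x) ^ (1 - c) :=
          Real.rpow_le_rpow (by positivity) h1 (by linarith)
      _ = 2 ^ (1 - c) * (x : ℝ) ^ (1 - c) := Real.mul_rpow (by norm_num) (by positivity)
      _ ≤ 2 * (x : ℝ) ^ (1 - c) := by
          refine mul_le_mul_of_nonneg_right ?_ (by positivity)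
          calc (2 : ℝ) ^ (1 - c) ≤ 2 ^ (1 : ℝ) :=
                Real.rpow_le_rpow_of_exponent_le (by norm_num) (by linarith)
            _ = 2 := Real.rpow_one _
  have hx2 : (1 : ℝ) ≤ (x : ℝ) ^ (1 - c) := Real.one_le_rpow hx1 (by linarith)
  refine hcard.trans ?_
  have h3 := hF t
  have h4 : C * (2 : ℝ) ^ ((1 - c) * t) ≤ C * (2 * (x : ℝ) ^ (1 - c)) :=
    mul_le_mul_of_nonneg_left hpow hC.le
  have h5 : (N0 : ℝ) ≤ N0 * (x : ℝ) ^ (1 - c) :=
    le_mul_of_one_le_right (Nat.cast_nonneg _) hx2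
  calc (N0 : ℝ) + (((Icc 1 (2 ^ t)).filter (fun N => ¬ Law (ε / 3) N)).card : ℝ)
      ≤ N0 * (x : ℝ) ^ (1 - c) + C * (2 * (x : ℝ) ^ (1 - c)) := by linarith
    _ = (N0 + 2 * C) * (x : ℝ) ^ (1 - c) := by ring

end Pool.Agent.Helper22.PS
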