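import Pool.Agent.Helper13.PS.St

/-!
# Project PS, module QT
-/

set_option autoImplicit false

namespace Pool.Agent.Helper22.PS

open Finset Pool.Agent.Helper76.ND Pool.Agent.Helper13.PS

private theorem hd_wd_odd (i N : ℕ) (h : S^[i] N % 2 = 1) :
    hd (wd (i + 1) N) = hd (wd i N) + 1 := by
  rw [wd, decide_eq_true h, hd_true]

private theorem hd_wd_even (i N : ℕ) (h : ¬ S^[i] N % 2 = 1) :
    hd (wd (i + 1) N) = hd (wd i N) := by
  rw [wd, decide_eq_false h, hd_false]

private theorem T_even (m : ℕ) (h : ¬ m % 2 = 1) : T m = S m := by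
  have h' : m % 2 = 0 := by omega
  simp [T, S, h']

private theorem T_odd (m : ℕ) (h : m % 2 = 1) : T m = 3 * m - 1 := by
  have h' : ¬ m % 2 = 0 := by omega
  simp [T, h']

private theorem TT_odd (m : ℕ) (h : m % 2 = 1) : T (T m) = S m := by
  have h' : ¬ m % 2 = 0 := by omega
  have h2 : (3 * m - 1) % 2 = 0 := by omega
  rw [T_odd m h]
  simp [T, S, h', h2]

private theorem q1 (i N : ℕ) : T^[i + hd (wd i N)] N = S^[i] N := by
  induction i with
  | zero => simp [wd]
  | succ i ih =>
    by_cases h : S^[i] N % 2 = 1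
    · rw [hd_wd_odd i N h, show i + 1 + (hd (wd i N) + 1) = (i + hd (wd i N)) + 1 + 1 by ring,
        Function.iterate_succ_apply', Function.iterate_succ_apply', ih, TT_odd _ h,
        Function.iterate_succ_apply']
    · rw [hd_wd_even i N h, show i + 1 + hd (wd i N) = (i + hd (wd i N)) + 1 by ring,
        Function.iterate_succ_apply', ih, T_even _ h, Function.iterate_succ_apply']

private theorem T_le (m : ℕ) : T m ≤ 3 * m := by
  unfold T
  split_ifs <;> omega

private theorem T_pos (m : ℕ) (h : 1 ≤ m) : 1 ≤ T m := by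
  unfold T
  split_ifs <;> omega

theorem hQT : StQT := by
  refine ⟨q1, ?_, ?_, ?_, ?_⟩
  · intro k N
    induction k with
    | zero => exact ⟨0, Or.inl ⟨by simp [wd], by simp⟩⟩
    | succ k ih =>
      obtain ⟨i, h | h⟩ := ih
      · obtain ⟨hk, hT⟩ := h
        by_cases ho : S^[i] N % 2 = 1
        · refine ⟨i, Or.inr ⟨by omega, ho, ?_⟩⟩
          rw [Function.iterate_succ_apply', hT, T_odd _ ho]
        · refine ⟨i + 1, Or.inl ⟨by rw [hd_wd_even i N ho]; omega, ?_⟩⟩
          rw [Function.iterate_succ_apply', hT, T_even _ ho, Function.iterate_succ_apply']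
      · obtain ⟨hk, ho, hT⟩ := h
        have hk' : k + 1 = (i + 1) + hd (wd (i + 1) N) := by
          rw [hd_wd_odd i N ho]; omega
        refine ⟨i + 1, Or.inl ⟨hk', ?_⟩⟩
        rw [hk']
        exact q1 (i + 1) N
  · intro k j N
    induction j with
    | zero => simp
    | succ j ih =>
      rw [show k + (j + 1) = (k + j) + 1 by ring, Function.iterate_succ_apply', pow_succ]
      have := T_le (T^[k + j] N)
      nlinarith
  · intro i i' N hii
    induction i', hii using Nat.le_induction with
    | base => exact le_refl _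
    | succ m hm ih =>
      by_cases ho : S^[m] N % 2 = 1
      · rw [hd_wd_odd m N ho]; omega
      · rw [hd_wd_even m N ho]; omega
  · intro k N hN
    induction k with
    | zero => simpa using hN
    | succ k ih =>
      rw [Function.iterate_succ_apply']
      exact T_pos _ ih

end Pool.Agent.Helper22.PS
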