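import Pool.Agent.Helper18.PS.St

/-!
# Project PS (MP_4afa08_nt), module ALG: the key identity
-/

set_option autoImplicit false

noncomputable section

namespace Pool.Agent.Helper22.PS

open Finset
open Nat (totient)
open Pool.Agent.Helper18.PS
open Pool.Agent.Helper30.LQ (StSMT)
open Pool.Agent.Helper94.DN (StRAN)

/-- the primes which divide `N` and not `s` -/
private def Fl (s N : ℕ) : Finset ℕ := N.primeFactors.filter (fun r => ¬ r ∣ s)

private def AA (s N : ℕ) : ℕ := ∏ r ∈ Fl s N, r

private theorem Fl_prime (s N : ℕ) : ∀ r ∈ Fl s N, r.Prime := fun _ hr =>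
  Nat.prime_of_mem_primeFactors (mem_filter.1 hr).1

private theorem AA_pf (s N : ℕ) : (AA s N).primeFactors = Fl s N :=
  Nat.primeFactors_prod (Fl_prime s N)

private theorem AA_pos (s N : ℕ) : 0 < AA s N := Finset.prod_pos fun r hr => (Fl_prime s N r hr).pos

private theorem AA_dvd (s N : ℕ) : AA s N ∣ N :=
  (Finset.prod_dvd_prod_of_subset _ _ _ (filter_subset _ _)).trans (Nat.prod_primeFactors_dvd N)

private theorem AA_sq (s N : ℕ) : Squarefree (AA s N) := by
  unfold AA
  refine Finset.squarefree_prod_of_pairwise_isCoprime ?_ ?_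
  · intro a ha b hb hab
    have h := (Nat.coprime_primes (Fl_prime s N a (by exact_mod_cast ha)) (Fl_prime s N b (by exact_mod_cast hb))).2 hab
    exact Nat.coprime_iff_isRelPrime.1 h
  · intro a ha
    exact (Fl_prime s N a ha).prime.squarefree

/-- `φ(s N) = B φ(s) φ(A)` -/
private theorem phi_mul (s N : ℕ) (hs : 0 < s) (hN : 0 < N) :
    totient (s * N) = (N / AA s N) * totient s * totient (AA s N) := by
  have hA := AA_pos s N
  obtain ⟨B, hB⟩ := AA_dvd s N
  have hdiv : N / AA s N = B := Nat.div_eq_of_eq_mul_right hA hB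
  rw [hdiv]
  have hpf : (s * N).primeFactors = s.primeFactors ∪ Fl s N := by
    rw [Nat.primeFactors_mul hs.ne' hN.ne']
    ext r
    simp only [mem_union, Fl, mem_filter, Nat.mem_primeFactors]
    constructor
    · rintro (h | h)
      · exact Or.inl h
      · by_cases h1 : r ∣ s
        · exact Or.inl ⟨h.1, h1, hs.ne'⟩
        · exact Or.inr ⟨h, h1⟩
    · rintro (h | h)
      · exact Or.inl h
      · exact Or.inr h.1
  have hdis : Disjoint s.primeFactors (Fl s N) := by
    rw [Finset.disjoint_left]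
    intro r h1 h2
    exact (mem_filter.1 h2).2 (Nat.dvd_of_mem_primeFactors h1)
  have e1 := Nat.totient_mul_prod_primeFactors (s * N)
  have e2 := Nat.totient_mul_prod_primeFactors s
  have e3 := Nat.totient_mul_prod_primeFactors (AA s N)
  rw [hpf, Finset.prod_union hdis, Finset.prod_union hdis] at e1
  rw [AA_pf] at e3
  have e4 : ∏ r ∈ Fl s N, r = AA s N := rfl
  rw [e4] at e1 e3
  have e5 : totient (AA s N) = ∏ r ∈ Fl s N, (r - 1) := by
    apply Nat.eq_of_mul_eq_mul_left hA
    rw [← e3]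
    ring
  rw [← e5] at e1
  have hR : 0 < ∏ r ∈ s.primeFactors, r := Finset.prod_pos fun r hr => (Nat.prime_of_mem_primeFactors hr).pos
  apply Nat.eq_of_mul_eq_mul_right (Nat.mul_pos hR hA)
  rw [e1]
  calc s * N * ((∏ p ∈ s.primeFactors, (p - 1)) * totient (AA s N))
      = (s * ∏ p ∈ s.primeFactors, (p - 1)) * (N * totient (AA s N)) := by ring
    _ = (totient s * ∏ p ∈ s.primeFactors, p) * (AA s N * B * totient (AA s N)) := by rw [← e2, ← hB]
    _ = _ := by ring

/-- Module ALG. -/
theorem hALG : StALG := by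
  intro m p hm hp hpm hS
  have hs : 0 < sg m := by
    have : sg m ≠ 0 := by
      intro h
      have h1 := (ArithmeticFunction.sigma_eq_zero (k := 1) (n := m)).1 h
      omega
    omega
  have hcop : Nat.Coprime m p := ((Nat.Prime.coprime_iff_not_dvd hp).2 hpm).symm
  have hsig : sg (m * p) = sg m * (p + 1) := by
    have h1 := ArithmeticFunction.isMultiplicative_sigma (k := 1) |>.map_mul_of_coprime hcop
    have h2 : sg p = p + 1 := by
      show ArithmeticFunction.sigma 1 p = p + 1
      rw [ArithmeticFunction.sigma_one_apply, Nat.Prime.sum_divisors hp]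
    show ArithmeticFunction.sigma 1 (m * p) = _
    rw [h1]
    show sg m * sg p = _
    rw [h2]
  have hphi : totient (m * p) = totient m * (p - 1) := by
    rw [Nat.totient_mul hcop, Nat.totient_prime hp]
  unfold Sol at hS
  rw [hsig, hphi, phi_mul _ _ hs (by omega)] at hS
  have hAB : AA (sg m) (p + 1) * ((p + 1) / AA (sg m) (p + 1)) = p + 1 := Nat.mul_div_cancel' (AA_dvd _ _)
  refine ⟨AA (sg m) (p + 1), (p + 1) / AA (sg m) (p + 1), hAB, AA_sq _ _, ?_, ?_⟩
  · intro r hr
    have h1 : r ∣ AA (sg m) (p + 1) ↔ r ∈ (AA (sg m) (p + 1)).primeFactors := by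
      rw [Nat.mem_primeFactors]
      exact ⟨fun h => ⟨hr, h, (AA_pos _ _).ne'⟩, fun h => h.2.1⟩
    rw [h1, AA_pf]
    unfold Fl
    rw [mem_filter, Nat.mem_primeFactors]
    exact ⟨fun h => ⟨h.1.2.1, h.2⟩, fun h => ⟨⟨hr, h.1, by omega⟩, h.2⟩⟩
  · have h2 : totient (sg m) * ((p + 1) / AA (sg m) (p + 1)) * totient (AA (sg m) (p + 1)) = totient m * (p - 1) := by
      rw [← hS]
      ring
    rw [h2, mul_assoc (totient m), hAB]
    have h3 : 1 ≤ p := hp.one_lt.le
    obtain ⟨k, rfl⟩ : ∃ k, p = k + 1 := ⟨p - 1, by omega⟩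
    rw [Nat.add_sub_cancel]
    ring

end Pool.Agent.Helper22.PS
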